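import Pool.Agent.Helper60.HD.Fin

/-!
# A hereditarily indecomposable Banach space isomorphic to its dual
-/

set_option autoImplicit false

namespace Pool.Agent.Results.MP_69cffb_an.SelfDualHI

/-- A normed space is indecomposable if every bounded linear projection on it has finite-dimensional
range or finite-dimensional kernel: it is not the topological direct sum of two infinite-dimensional
closed subspaces. -/
def Indecomposable (E : Type) [NormedAddCommGroup E] [NormedSpace ℝ E] : Prop :=
  ∀ P : E →L[ℝ] E, P ∘L P = P →
    FiniteDimensional ℝ (LinearMap.range P.toLinearMap) ∨ FiniteDimensional ℝ (LinearMap.ker P.toLinearMap)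

/-- A Banach space is hereditarily indecomposable if each of its closed infinite-dimensional
subspaces is indecomposable. -/
def HI (X : Type) [NormedAddCommGroup X] [NormedSpace ℝ X] : Prop :=
  ∀ Y : Submodule ℝ X, IsClosed (Y : Set X) → ¬ FiniteDimensional ℝ Y → Indecomposable Y

/-- There is an infinite-dimensional hereditarily indecomposable Banach space isomorphic to its dual. -/
theorem result : ∃ (X : Type) (_ : NormedAddCommGroup X) (_ : NormedSpace ℝ X), CompleteSpace X ∧
    ¬ FiniteDimensional ℝ X ∧ HI X ∧ Nonempty (X ≃L[ℝ] StrongDual ℝ X) := by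
  obtain ⟨X, i1, i2, h1, h2, h3, h4⟩ := Pool.Agent.Helper60.HD.main
  exact ⟨X, i1, i2, h1, h2, fun Y hY _ P hP => h3 Y hY P hP, h4⟩

end Pool.Agent.Results.MP_69cffb_an.SelfDualHI
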